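import Mathlib

set_option autoImplicit false

open Filter Set

namespace Pool.Agent.SumQ

/-- `Good f`: no infinite set `X` of rationals has `f` constant on `X + X`. -/
def Good (f : ℚ → Bool) : Prop :=
  ∀ X : Set ℚ, X.Infinite → ¬ ∃ i : Bool, ∀ x ∈ X, ∀ y ∈ X, f (x + y) = i

lemma ultra_bool {α : Type*} (U : Ultrafilter α) (g : α → Bool) :
    ∃ c : Bool, ∀ᶠ x in (U : Filter α), g x = c := by
  by_cases h : ∀ᶠ x in (U : Filter α), g x = true
  · exact ⟨true, h⟩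
  · refine ⟨false, ?_⟩
    rw [← Ultrafilter.eventually_not] at h
    filter_upwards [h] with x hx
    simpa using hx

lemma good_ultra {f : ℚ → Bool} (hf : Good f) (w : ℚ) (U : Ultrafilter ℚ)
    (hU : (U : Filter ℚ) ≤ cofinite) (c : Bool)
    (h1 : ∀ᶠ x in (U : Filter ℚ), ∀ᶠ y in (U : Filter ℚ), f (w + x + y) = c)
    (h2 : ∀ᶠ x in (U : Filter ℚ), f (w + 2 * x) = c) : False := by
  obtain ⟨x, hx1, hx2⟩ := exists_seq_of_forall_finset_exists
    (fun x : ℚ => f (w + 2 * x) = c ∧ ∀ᶠ y in (U : Filter ℚ), f (w + x + y) = c)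
    (fun x y : ℚ => f (w + x + y) = c ∧ x ≠ y) (by
      intro s hs
      have hne : ∀ᶠ y in (U : Filter ℚ), y ∉ (s : Set ℚ) :=
        hU (s.finite_toSet.compl_mem_cofinite)
      have hall : ∀ᶠ y in (U : Filter ℚ), ∀ x ∈ s, f (w + x + y) = c := by
        rw [Filter.eventually_all_finset]
        intro x hx
        exact (hs x hx).2
      obtain ⟨y, hy⟩ := (h1.and (h2.and (hne.and hall))).exists
      refine ⟨y, ⟨hy.2.1, hy.1⟩, fun x hx => ⟨hy.2.2.2 x hx, ?_⟩⟩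
      rintro rfl
      exact hy.2.2.1 (by exact_mod_cast hx))
  have hinj : Function.Injective x := by
    intro a b hab
    rcases lt_trichotomy a b with h | h | h
    · exact absurd hab (hx2 a b h).2
    · exact h
    · exact absurd hab.symm (hx2 b a h).2
  refine hf (range fun n => w / 2 + x n) (infinite_range_of_injective ?_) ⟨c, ?_⟩
  · intro a b hab
    exact hinj (by simpa using hab)
  · rintro _ ⟨a, rfl⟩ _ ⟨b, rfl⟩
    rcases lt_trichotomy a b with h | h | h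
    · have := (hx2 a b h).1
      rw [← this]
      congr 1
      ring
    · subst h
      have := (hx1 a).1
      rw [← this]
      congr 1
      ring
    · have := (hx2 b a h).1
      rw [← this]
      congr 1
      ring

lemma good_flip {f : ℚ → Bool} (hf : Good f) (w : ℚ) (U : Ultrafilter ℚ)
    (hU : (U : Filter ℚ) ≤ cofinite) (c : Bool)
    (h2 : ∀ᶠ x in (U : Filter ℚ), f (w + 2 * x) = c) :
    ∀ᶠ x in (U : Filter ℚ), ∀ᶠ y in (U : Filter ℚ), f (w + x + y) = !c := by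
  have h : ∀ x : ℚ, ∃ c' : Bool, ∀ᶠ y in (U : Filter ℚ), f (w + x + y) = c' :=
    fun x => ultra_bool U _
  choose g hg using h
  obtain ⟨c', hc'⟩ := ultra_bool U g
  have h1 : ∀ᶠ x in (U : Filter ℚ), ∀ᶠ y in (U : Filter ℚ), f (w + x + y) = c' := by
    filter_upwards [hc'] with x hx
    filter_upwards [hg x] with y hy
    rw [hy, hx]
  have : c' = !c := by
    by_contra hne
    have : c' = c := by
      revert hne
      cases c <;> cases c' <;> simp
    subst this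
    exact good_ultra hf w U hU _ h1 h2
  subst this
  exact h1

/-- The doubled colouring is also good. -/
lemma good_two {f : ℚ → Bool} (hf : Good f) : Good (fun x => f (2 * x)) := by
  intro X hX ⟨i, hi⟩
  refine hf ((fun x => 2 * x) '' X) (hX.image ?_) ⟨i, ?_⟩
  · intro a _ b _ hab
    simpa using hab
  · rintro _ ⟨a, ha, rfl⟩ _ ⟨b, hb, rfl⟩
    have := hi a ha b hb
    simp only at this ⊢
    rw [← this]
    congr 1
    ring

/-- `L n` is the group of rationals of the form `a / 7 ^ n`. -/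
def L (n : ℕ) : AddSubgroup ℚ where
  carrier := {x | ∃ a : ℤ, x * 7 ^ n = a}
  add_mem' := by
    rintro x y ⟨a, ha⟩ ⟨b, hb⟩
    exact ⟨a + b, by push_cast; rw [add_mul, ha, hb]⟩
  zero_mem' := ⟨0, by simp⟩
  neg_mem' := by
    rintro x ⟨a, ha⟩
    exact ⟨-a, by push_cast; rw [neg_mul, ha]⟩

lemma mem_L {n : ℕ} {x : ℚ} : x ∈ L n ↔ ∃ a : ℤ, x * 7 ^ n = a := Iff.rfl

lemma L_mono : Monotone L := by
  intro m n hmn x hx
  rw [mem_L] at hx ⊢
  obtain ⟨a, ha⟩ := hx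
  refine ⟨a * 7 ^ (n - m), ?_⟩
  push_cast
  rw [← ha, mul_assoc, ← pow_add]
  congr 2
  omega

lemma intCast_mem_L (n : ℕ) (a : ℤ) : (a : ℚ) ∈ L n := ⟨a * 7 ^ n, by push_cast; ring⟩

lemma half_mem_L {n m : ℕ} {x : ℚ} (hx : x ∈ L m) (h : 2 * x ∈ L n) : x ∈ L n := by
  rw [mem_L] at hx h ⊢
  obtain ⟨a, ha⟩ := hx
  obtain ⟨b, hb⟩ := h
  have h1 : (b : ℚ) * 7 ^ m = 2 * a * 7 ^ n := by
    rw [← hb, ← ha]; ring
  have h2 : b * 7 ^ m = 2 * (a * 7 ^ n) := by
    have : ((b * 7 ^ m : ℤ) : ℚ) = ((2 * (a * 7 ^ n) : ℤ) : ℚ) := by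
      push_cast; rw [h1]; ring
    exact_mod_cast this
  have h3 : (2 : ℤ) ∣ b * 7 ^ m := ⟨_, h2⟩
  have h4 : (2 : ℤ) ∣ b := by
    rcases Int.Prime.dvd_mul' Nat.prime_two (by exact_mod_cast h3) with h | h
    · exact_mod_cast h
    · have h' : ((2 : ℕ) : ℤ) ∣ (7 : ℤ) ^ m := by exact_mod_cast h
      have := Int.Prime.dvd_pow' Nat.prime_two h'
      norm_num at this
  obtain ⟨c, hc⟩ := h4
  refine ⟨c, ?_⟩
  have : (2 : ℚ) * (x * 7 ^ n) = 2 * c := by
    rw [← mul_assoc, hb, hc]; push_cast; ring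
  linarith

/-- `H` is the group of rationals whose denominator is a power of seven. -/
def H : AddSubgroup ℚ where
  carrier := {x | ∃ n, x ∈ L n}
  add_mem' := by
    rintro x y ⟨m, hm⟩ ⟨n, hn⟩
    exact ⟨max m n, (L _).add_mem (L_mono (le_max_left _ _) hm) (L_mono (le_max_right _ _) hn)⟩
  zero_mem' := ⟨0, (L 0).zero_mem⟩
  neg_mem' := by
    rintro x ⟨n, hn⟩
    exact ⟨n, (L n).neg_mem hn⟩

lemma mem_H {x : ℚ} : x ∈ H ↔ ∃ n, x ∈ L n := Iff.rfl

lemma L_le_H (n : ℕ) : L n ≤ H := fun _ hx => ⟨n, hx⟩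

lemma parity {n : ℕ} {l : ℚ} (hl : l ∈ L n) :
    ∃ b : Bool, ∃ l' ∈ L n, l = (if b then 1 else 0) + 2 * l' := by
  obtain ⟨a, ha⟩ := mem_L.1 hl
  have h7 : (7 : ℚ) ^ n ≠ 0 := by positivity
  rcases Int.even_or_odd' a with ⟨k, hk | hk⟩
  · refine ⟨false, k / 7 ^ n, mem_L.2 ⟨k, by field_simp⟩, ?_⟩
    have : l = a / 7 ^ n := by rw [← ha]; field_simp
    rw [this, hk]
    push_cast
    simp
    ring
  · have hodd : Odd ((7 : ℤ) ^ n) := (by decide : Odd (7 : ℤ)).pow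
    obtain ⟨j, hj⟩ := hodd
    refine ⟨true, (k - j : ℤ) / 7 ^ n, mem_L.2 ⟨k - j, by field_simp⟩, ?_⟩
    have h1 : l = a / 7 ^ n := by rw [← ha]; field_simp
    have h2 : (7 : ℚ) ^ n = 2 * j + 1 := by exact_mod_cast hj
    rw [h1, hk]
    push_cast
    simp only [if_true]
    field_simp
    rw [h2]
    ring

lemma finite_L_inter (n : ℕ) (ρ : ℚ) : {x : ℚ | x ∈ L n ∧ |x| ≤ ρ}.Finite := by
  have h7 : (7 : ℚ) ^ n ≠ 0 := by positivity
  have h7' : (0 : ℚ) < 7 ^ n := by positivity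
  refine ((finite_Icc (-⌈ρ * 7 ^ n⌉) (⌈ρ * 7 ^ n⌉)).image (fun a : ℤ => (a : ℚ) / 7 ^ n)).subset ?_
  rintro x ⟨hx, hxρ⟩
  obtain ⟨a, ha⟩ := mem_L.1 hx
  refine ⟨a, ?_, ?_⟩
  · rw [mem_Icc]
    rw [abs_le] at hxρ
    have h1 : (a : ℚ) ≤ ⌈ρ * 7 ^ n⌉ := by
      rw [← ha]
      exact (mul_le_mul_of_nonneg_right hxρ.2 h7'.le).trans (Int.le_ceil _)
    have h2 : -(⌈ρ * 7 ^ n⌉ : ℚ) ≤ a := by
      rw [← ha]
      have := mul_le_mul_of_nonneg_right hxρ.1 h7'.le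
      have h3 := Int.le_ceil (ρ * 7 ^ n)
      linarith
    constructor
    · exact_mod_cast h2
    · exact_mod_cast h1
  · simp only
    rw [← ha]
    field_simp

end Pool.Agent.SumQ
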