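import Mathlib
import Pool.Agent.Lib_MP_d5cc4e_co.Basic

set_option autoImplicit false

open Filter Set

namespace Pool.Agent.SumQ

/-- The condition `C`: the local pattern `φ` near `x` forces the colour of `2 * x`. -/
def C (f : ℚ → Bool) (F : Finset ℚ) (φ : ℚ → Bool) : Prop :=
  ∀ x, x ∉ F → (∀ u ∈ F, f (x + u) = φ u) → f (2 * x) = !(φ x)

lemma C_mono {f : ℚ → Bool} {F F' : Finset ℚ} (h : F ⊆ F') {φ : ℚ → Bool} (hC : C f F φ) :
    C f F' φ := fun x hx hu => hC x (fun hx' => hx (h hx')) (fun u hu' => hu u (h hu'))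

lemma isClopen_eval (u : ℚ) (b : Bool) : IsClopen {φ : ℚ → Bool | φ u = b} :=
  (isClopen_discrete ({b} : Set Bool)).preimage (continuous_apply u)

lemma isClopen_pattern (F : Finset ℚ) (g : ℚ → Bool) :
    IsClopen {φ : ℚ → Bool | ∀ u ∈ F, g u = φ u} := by
  have : {φ : ℚ → Bool | ∀ u ∈ F, g u = φ u} = ⋂ u ∈ F, {φ : ℚ → Bool | φ u = g u} := by
    ext φ
    simp [eq_comm]
  rw [this]
  exact F.finite_toSet.isClopen_biInter (fun u _ => isClopen_eval u _)

lemma isClosed_C (f : ℚ → Bool) (F : Finset ℚ) : IsClosed {φ : ℚ → Bool | C f F φ} := by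
  have : {φ : ℚ → Bool | C f F φ} = ⋂ x : ℚ, ⋂ _ : x ∉ F,
      ({φ : ℚ → Bool | ∀ u ∈ F, f (x + u) = φ u}ᶜ ∪ {φ : ℚ → Bool | φ x = !(f (2 * x))}) := by
    ext φ
    simp only [C, mem_ofPred_eq, mem_iInter, mem_union, mem_compl_iff]
    refine forall_congr' fun x => forall_congr' fun _ => ?_
    rw [imp_iff_not_or]
    refine or_congr Iff.rfl ?_
    constructor
    · intro h; rw [h]; simp
    · intro h; rw [h]; simp
  rw [this]
  refine isClosed_iInter fun x => isClosed_iInter fun _ => IsClosed.union ?_ ?_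
  · exact (isClopen_pattern F (fun u => f (x + u))).compl.isClosed
  · exact (isClopen_eval x _).isClosed

/-- Every pattern satisfies one of the conditions `C` along an exhausting sequence. -/
lemma exists_C {f : ℚ → Bool} (hf : Good f) (F : ℕ → Finset ℚ) (hF : Monotone F)
    (hF' : ∀ x, ∃ n, x ∈ F n) (φ : ℚ → Bool) : ∃ n, C f (F n) φ := by
  by_contra hcon
  push Not at hcon
  have h : ∀ n, ∃ x, x ∉ F n ∧ (∀ u ∈ F n, f (x + u) = φ u) ∧ f (2 * x) = φ x := by
    intro n
    have := hcon n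
    unfold C at this
    push Not at this
    obtain ⟨x, hx, hu, hx2⟩ := this
    refine ⟨x, hx, hu, ?_⟩
    revert hx2
    cases f (2 * x) <;> cases φ x <;> simp
  choose x hx hu h2 using h
  set U : Ultrafilter ℚ := (hyperfilter ℕ).map x with hU
  have hle : (U : Filter ℚ) ≤ cofinite := by
    have ht : Tendsto x atTop cofinite := by
      intro s hs
      rw [mem_cofinite] at hs
      rw [mem_map]
      have : ∀ᶠ n in atTop, ∀ y ∈ hs.toFinset, y ∈ F n := by
        rw [Filter.eventually_all_finset]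
        intro y _
        obtain ⟨n, hn⟩ := hF' y
        filter_upwards [eventually_ge_atTop n] with m hm
        exact hF hm hn
      filter_upwards [this] with n hn
      by_contra hns
      exact hx n (hn (x n) (by simpa using hns))
    rw [hU, Ultrafilter.coe_map]
    exact le_trans (map_mono Nat.hyperfilter_le_atTop) ht
  obtain ⟨c, hc⟩ := ultra_bool (hyperfilter ℕ) (fun n => φ (x n))
  refine good_ultra hf 0 U hle c ?_ ?_
  · have : ∀ᶠ j in (hyperfilter ℕ : Filter ℕ), ∀ᶠ n in (hyperfilter ℕ : Filter ℕ),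
        f (0 + x j + x n) = c := by
      filter_upwards [hc] with j hj
      obtain ⟨n0, hn0⟩ := hF' (x j)
      have : ∀ᶠ n in (hyperfilter ℕ : Filter ℕ), n0 ≤ n :=
        Nat.hyperfilter_le_atTop (eventually_ge_atTop n0)
      filter_upwards [this] with n hn
      rw [zero_add, add_comm, hu n (x j) (hF hn hn0), hj]
    rw [hU]
    exact this
  · have : ∀ᶠ n in (hyperfilter ℕ : Filter ℕ), f (0 + 2 * x n) = c := by
      filter_upwards [hc] with n hn
      rw [zero_add, h2 n, hn]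
    rw [hU]
    exact this

/-- Limits of translates of `f` along sequences in `H ∩ [-ρ, ρ]`. -/
def Lim (f : ℚ → Bool) (ρ : ℚ) : Set (ℚ → Bool) :=
  {φ | ∀ F E : Finset ℚ, ∃ x ∈ H, x ∉ E ∧ |x| ≤ ρ ∧ ∀ u ∈ F, f (x + u) = φ u}

/-- All limits together with their complements. -/
def S (f : ℚ → Bool) : Set (ℚ → Bool) :=
  {φ | ∃ s : Bool, ∃ ρ : ℚ, (fun u => xor s (φ u)) ∈ Lim f ρ}

/-- The closure of `S f`. -/
def Q (f : ℚ → Bool) : Set (ℚ → Bool) := closure (S f)

lemma S_transl {f : ℚ → Bool} {φ : ℚ → Bool} (hφ : φ ∈ S f) (s : Bool) {h : ℚ} (hh : h ∈ H) :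
    (fun u => xor s (φ (h + u))) ∈ S f := by
  obtain ⟨s', ρ, hρ⟩ := hφ
  refine ⟨xor s' s, ρ + |h|, ?_⟩
  intro F E
  obtain ⟨x, hxH, hxE, hxρ, hxF⟩ := hρ (F.image (fun u => h + u)) (E.image (fun e => e - h))
  refine ⟨x + h, H.add_mem hxH hh, ?_, ?_, ?_⟩
  · intro hmem
    exact hxE (Finset.mem_image.2 ⟨x + h, hmem, by ring⟩)
  · exact (abs_add_le x h).trans (by linarith)
  · intro u hu
    have := hxF (h + u) (Finset.mem_image.2 ⟨u, hu, rfl⟩)
    rw [add_assoc, this]
    show xor s' (φ (h + u)) = xor (xor s' s) (xor s (φ (h + u)))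
    generalize φ (h + u) = b
    cases s <;> cases s' <;> cases b <;> rfl

lemma Q_transl {f : ℚ → Bool} {φ : ℚ → Bool} (hφ : φ ∈ Q f) (s : Bool) {h : ℚ} (hh : h ∈ H) :
    (fun u => xor s (φ (h + u))) ∈ Q f := by
  have hc : Continuous (fun φ : ℚ → Bool => fun u => xor s (φ (h + u))) := by
    refine continuous_pi fun u => ?_
    exact (continuous_of_discreteTopology (f := fun b : Bool => xor s b)).comp
      (continuous_apply (h + u))
  exact map_mem_closure hc hφ (fun ψ hψ => S_transl hψ s hh)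

lemma S_nonempty (f : ℚ → Bool) : (S f).Nonempty := by
  set x : ℕ → ℚ := fun n => 1 / 7 ^ n with hx
  have hinj : Function.Injective x := by
    intro a b hab
    simp only [hx, one_div, inv_inj] at hab
    exact pow_right_injective₀ (by norm_num) (by norm_num) hab
  have h : ∀ u : ℚ, ∃ c : Bool, ∀ᶠ n in (hyperfilter ℕ : Filter ℕ), f (x n + u) = c :=
    fun u => ultra_bool (hyperfilter ℕ) _
  choose φ hφ using h
  refine ⟨φ, false, 1, ?_⟩
  intro F E
  have h1 : ∀ᶠ n in (hyperfilter ℕ : Filter ℕ), x n ∉ E := by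
    have hfin : {n | x n ∈ E}.Finite := E.finite_toSet.preimage hinj.injOn
    have := hyperfilter_le_cofinite hfin.compl_mem_cofinite
    exact this
  have h2 : ∀ᶠ n in (hyperfilter ℕ : Filter ℕ), ∀ u ∈ F, f (x n + u) = φ u := by
    rw [Filter.eventually_all_finset]
    intro u _
    exact hφ u
  obtain ⟨n, hn1, hn2⟩ := (h1.and h2).exists
  refine ⟨x n, ⟨n, mem_L.2 ⟨1, ?_⟩⟩, hn1, ?_, fun u hu => ?_⟩
  · simp [hx]
  · rw [hx]
    simp only
    rw [abs_of_nonneg (by positivity), div_le_one (by positivity)]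
    exact one_le_pow₀ (by norm_num)
  · rw [hn2 u hu]
    simp

lemma mem_closure_pattern {A : Set (ℚ → Bool)} {φ : ℚ → Bool} (h : φ ∈ closure A)
    (F : Finset ℚ) : ∃ ψ ∈ A, ∀ u ∈ F, φ u = ψ u := by
  rw [mem_closure_iff] at h
  obtain ⟨ψ, hψ, hψA⟩ := h _ (isClopen_pattern F φ).isOpen (by simp)
  exact ⟨ψ, hψA, hψ⟩

/-- The Baire category step. -/
lemma baire_step {f : ℚ → Bool} (hf : Good f) :
    ∃ ρ : ℚ, ∃ φ₀ ∈ Lim f ρ, ∃ N Fs : Finset ℚ, N ⊆ Fs ∧
      ∀ s : Bool, ∀ φ ∈ Q f, (∀ u ∈ Fs, φ u = xor s (φ₀ u)) → C f N φ := by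
  obtain ⟨e, he⟩ := exists_surjective_nat ℚ
  set F : ℕ → Finset ℚ := fun n => (Finset.range n).image e with hFdef
  have hF : Monotone F := by
    intro m n hmn
    exact Finset.image_subset_image (Finset.range_mono hmn)
  have hF' : ∀ x, ∃ n, x ∈ F n := by
    intro x
    obtain ⟨n, rfl⟩ := he x
    exact ⟨n + 1, Finset.mem_image.2 ⟨n, by simp, rfl⟩⟩
  have hQc : IsClosed (Q f) := isClosed_closure
  have hQne : (Q f).Nonempty := (S_nonempty f).mono subset_closure
  have : Nonempty (Q f) := hQne.to_subtype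
  have : CompactSpace (Q f) := isCompact_iff_compactSpace.1 hQc.isCompact
  set D : ℕ → Set (Q f) := fun n => {φ | C f (F n) φ.1 ∧ C f (F n) (fun u => !(φ.1 u))} with hD
  have hDc : ∀ n, IsClosed (D n) := by
    intro n
    have h1 : IsClosed {φ : Q f | C f (F n) φ.1} :=
      (isClosed_C f (F n)).preimage continuous_subtype_val
    have hc : Continuous (fun φ : ℚ → Bool => fun u => !(φ u)) := by
      refine continuous_pi fun u => ?_
      exact (continuous_of_discreteTopology (f := fun b : Bool => !b)).comp (continuous_apply u)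
    have h2 : IsClosed {φ : Q f | C f (F n) (fun u => !(φ.1 u))} :=
      (isClosed_C f (F n)).preimage (hc.comp continuous_subtype_val)
    exact h1.inter h2
  have hDU : ⋃ n, D n = univ := by
    rw [eq_univ_iff_forall]
    intro φ
    obtain ⟨m, hm⟩ := exists_C hf F hF hF' φ.1
    obtain ⟨n, hn⟩ := exists_C hf F hF hF' (fun u => !(φ.1 u))
    exact mem_iUnion.2 ⟨max m n, C_mono (hF (le_max_left _ _)) hm, C_mono (hF (le_max_right _ _)) hn⟩
  obtain ⟨n, φ₁, hφ₁⟩ := nonempty_interior_of_iUnion_of_closed hDc hDU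
  rw [mem_interior_iff_mem_nhds, nhds_subtype_eq_comap, mem_comap] at hφ₁
  obtain ⟨t, ht, htD⟩ := hφ₁
  rw [mem_nhds_iff] at ht
  obtain ⟨V, hVt, hV, hφV⟩ := ht
  rw [isOpen_pi_iff] at hV
  obtain ⟨I, u, hu, hIV⟩ := hV φ₁.1 hφV
  have hpat : ∀ φ ∈ Q f, (∀ v ∈ I, φ v = φ₁.1 v) → C f (F n) φ ∧ C f (F n) (fun u => !(φ u)) := by
    intro φ hφ hφI
    have : (⟨φ, hφ⟩ : Q f) ∈ D n := by
      apply htD
      apply hVt
      apply hIV
      intro v hv
      show φ v ∈ u v
      rw [hφI v hv]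
      exact (hu v hv).2
    exact this
  obtain ⟨φ₂, hφ₂S, hφ₂⟩ := mem_closure_pattern φ₁.2 (I ∪ F n)
  obtain ⟨s, ρ, hρ⟩ := hφ₂S
  refine ⟨ρ, _, hρ, F n, I ∪ F n, Finset.subset_union_right, ?_⟩
  intro s' φ hφ hφI
  -- either `φ` or its complement agrees with `φ₁` on `I`
  rcases Bool.eq_false_or_eq_true (xor s' s) with hs | hs
  · have hneg : (fun u => !(φ u)) ∈ Q f := by
      have := Q_transl hφ true (h := 0) H.zero_mem
      simpa using this
    have := (hpat _ hneg (by
      intro v hv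
      have h1 := hφI v (Finset.mem_union_left _ hv)
      have h2 := hφ₂ v (Finset.mem_union_left _ hv)
      rw [h1, h2]
      revert hs
      generalize φ₂ v = b
      cases s <;> cases s' <;> cases b <;> simp)).2
    simpa using this
  · exact (hpat φ hφ (by
      intro v hv
      have h1 := hφI v (Finset.mem_union_left _ hv)
      have h2 := hφ₂ v (Finset.mem_union_left _ hv)
      rw [h1, h2]
      revert hs
      generalize φ₂ v = b
      cases s <;> cases s' <;> cases b <;> simp)).1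

/-- The key lemma. -/
lemma key {f : ℚ → Bool} {φ₀ : ℚ → Bool} {N Fs : Finset ℚ} (hN : N ⊆ Fs)
    (hC : ∀ s : Bool, ∀ φ ∈ Q f, (∀ u ∈ Fs, φ u = xor s (φ₀ u)) → C f N φ)
    {φ : ℚ → Bool} (hφ : φ ∈ Q f) {t t' : ℚ} (ht : t ∈ H) (ht' : t' ∈ H) (s s' : Bool) (x : ℚ)
    (h1 : ∀ u ∈ Fs, φ (t + u) = xor s (φ₀ u)) (h2 : ∀ u ∈ Fs, φ (t' + u) = xor s' (φ₀ u))
    (h3 : ∀ u ∈ Fs, f (x + t + u) = xor s (φ₀ u)) (h4 : ∀ u ∈ Fs, f (x + t' + u) = xor s' (φ₀ u))
    (h5 : x + t ∉ N) (h6 : x + t' ∉ N) : f (2 * (x + t)) = f (2 * (x + t')) := by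
  have hA : C f N (fun u => xor (xor s s') (φ (t' + u))) := by
    refine hC s _ (Q_transl hφ _ ht') ?_
    intro u hu
    rw [h2 u hu]
    generalize φ₀ u = b
    cases s <;> cases s' <;> cases b <;> rfl
  have hB : C f N (fun u => xor (xor s s') (φ (t + u))) := by
    refine hC s' _ (Q_transl hφ _ ht) ?_
    intro u hu
    rw [h1 u hu]
    generalize φ₀ u = b
    cases s <;> cases s' <;> cases b <;> rfl
  have hA' := hA (x + t) h5 (by
    intro u hu
    beta_reduce
    rw [h3 u (hN hu), h2 u (hN hu)]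
    generalize φ₀ u = b
    cases s <;> cases s' <;> cases b <;> rfl)
  have hB' := hB (x + t') h6 (by
    intro u hu
    beta_reduce
    rw [h4 u (hN hu), h1 u (hN hu)]
    generalize φ₀ u = b
    cases s <;> cases s' <;> cases b <;> rfl)
  simp only at hA' hB'
  rw [hA', hB']
  have : t' + (x + t) = t + (x + t') := by ring
  rw [this]

end Pool.Agent.SumQ
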