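import Mathlib
import Pool.Agent.Lib_MP_d5cc4e_co.Limits

set_option autoImplicit false

open Filter Set

namespace Pool.Agent.SumQ

/-- The points near which `f` shows the pattern `φ₀` on `Fs`, up to complement. -/
def B (f : ℚ → Bool) (φ₀ : ℚ → Bool) (Fs : Finset ℚ) : Set ℚ :=
  {x | ∃ s : Bool, ∀ u ∈ Fs, f (x + u) = xor s (φ₀ u)}

/-- If `w + 2 y` is in `B` for most `y`, then so is `w + y + y'` for most `y` and `y'`. -/
lemma B_linear {f : ℚ → Bool} (hf : Good f) (φ₀ : ℚ → Bool) (Fs : Finset ℚ) (w : ℚ)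
    (U : Ultrafilter ℚ) (hU : (U : Filter ℚ) ≤ cofinite)
    (h : ∀ᶠ y in (U : Filter ℚ), w + 2 * y ∈ B f φ₀ Fs) :
    ∀ᶠ y in (U : Filter ℚ), ∀ᶠ y' in (U : Filter ℚ), w + y + y' ∈ B f φ₀ Fs := by
  have h' : ∀ y : ℚ, ∃ s : Bool, w + 2 * y ∈ B f φ₀ Fs →
      ∀ u ∈ Fs, f (w + 2 * y + u) = xor s (φ₀ u) := by
    intro y
    by_cases hy : w + 2 * y ∈ B f φ₀ Fs
    · obtain ⟨s, hs⟩ := hy
      exact ⟨s, fun _ => hs⟩
    · exact ⟨true, fun hy' => absurd hy' hy⟩
  choose s hs using h'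
  obtain ⟨σ, hσ⟩ := ultra_bool U s
  have h2 : ∀ u ∈ Fs, ∀ᶠ y in (U : Filter ℚ), ∀ᶠ y' in (U : Filter ℚ),
      f (w + y + y' + u) = !(xor σ (φ₀ u)) := by
    intro u hu
    have := good_flip hf (w + u) U hU (xor σ (φ₀ u)) (by
      filter_upwards [h, hσ] with y hy hy'
      rw [← hy', ← hs y hy u hu]
      congr 1
      ring)
    filter_upwards [this] with y hy
    filter_upwards [hy] with y' hy'
    rw [← hy']
    congr 1
    ring
  have h3 : ∀ᶠ y in (U : Filter ℚ), ∀ u ∈ Fs, ∀ᶠ y' in (U : Filter ℚ),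
      f (w + y + y' + u) = !(xor σ (φ₀ u)) := by
    rw [Filter.eventually_all_finset]
    exact h2
  filter_upwards [h3] with y hy
  have h4 : ∀ᶠ y' in (U : Filter ℚ), ∀ u ∈ Fs, f (w + y + y' + u) = !(xor σ (φ₀ u)) := by
    rw [Filter.eventually_all_finset]
    exact hy
  filter_upwards [h4] with y' hy'
  refine ⟨!σ, fun u hu => ?_⟩
  rw [hy' u hu]
  generalize φ₀ u = b
  cases σ <;> cases b <;> rfl

/-- The step from a coset to its double. -/
lemma double_step {f : ℚ → Bool} (hf : Good f) (φ₀ : ℚ → Bool) (Fs : Finset ℚ) (ρ : ℚ) :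
    ∃ k : ℕ, ∀ x ∈ H, x ∉ L k → ∀ c : Bool,
      (∀ z, z - x ∈ L k → |z| ≤ ρ → z ∈ B f φ₀ Fs → f (2 * z) = c) →
      (∀ z, z - 2 * x ∈ L k → |z| ≤ ρ → z ∈ B f φ₀ Fs → f (2 * z) = !c) := by
  by_contra hcon
  push Not at hcon
  choose x hxH hxL c hc t ht htρ htB htc using hcon
  have hpar : ∀ n, ∃ b : Bool, ∃ y : ℚ, y - x n ∈ L n ∧ t n = (if b then 1 else 0) + 2 * y := by
    intro n
    obtain ⟨b, l', hl', hbl⟩ := parity (ht n)
    refine ⟨b, x n + l', by simpa using hl', ?_⟩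
    linarith
  choose b y hy hty using hpar
  obtain ⟨b₀, hb₀⟩ := ultra_bool (hyperfilter ℕ) b
  obtain ⟨c₀, hc₀⟩ := ultra_bool (hyperfilter ℕ) c
  set w : ℚ := if b₀ then 1 else 0 with hw
  have hwH : w ∈ H := by
    rw [hw]
    cases b₀
    · simp
    · simpa using L_le_H 0 (by simpa using intCast_mem_L 0 1)
  have hyH : ∀ n, y n ∈ H := by
    intro n
    have := H.add_mem (L_le_H n (hy n)) (hxH n)
    simpa using this
  have hyL : ∀ n, y n ∉ L n := by
    intro n hn
    have := (L n).sub_mem hn (hy n)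
    exact hxL n (by simpa using this)
  have hev : ∀ n0 : ℕ, ∀ᶠ n in (hyperfilter ℕ : Filter ℕ), n0 ≤ n := fun n0 =>
    Nat.hyperfilter_le_atTop (eventually_ge_atTop n0)
  set U : Ultrafilter ℚ := (hyperfilter ℕ).map y with hU
  have hle : (U : Filter ℚ) ≤ cofinite := by
    rw [le_cofinite_iff_eventually_ne]
    intro q
    have : ∀ᶠ n in (hyperfilter ℕ : Filter ℕ), y n ≠ q := by
      by_cases hq : q ∈ H
      · obtain ⟨n0, hn0⟩ := hq
        filter_upwards [hev n0] with n hn h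
        exact hyL n (h ▸ L_mono hn hn0)
      · exact Eventually.of_forall fun n h => hq (h ▸ hyH n)
    rw [hU]
    exact this
  have htw : ∀ᶠ n in (hyperfilter ℕ : Filter ℕ), t n = w + 2 * y n := by
    filter_upwards [hb₀] with n hn
    rw [hty n, hn, hw]
  have hBU : ∀ᶠ z in (U : Filter ℚ), w + 2 * z ∈ B f φ₀ Fs := by
    have : ∀ᶠ n in (hyperfilter ℕ : Filter ℕ), w + 2 * y n ∈ B f φ₀ Fs := by
      filter_upwards [htw] with n hn
      rw [← hn]
      exact htB n
    rw [hU]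
    exact this
  have hBlin : ∀ᶠ i in (hyperfilter ℕ : Filter ℕ), ∀ᶠ j in (hyperfilter ℕ : Filter ℕ),
      w + y i + y j ∈ B f φ₀ Fs := B_linear hf φ₀ Fs w U hle hBU
  refine good_ultra (good_two hf) w U hle c₀ ?_ ?_
  · have : ∀ᶠ i in (hyperfilter ℕ : Filter ℕ), ∀ᶠ j in (hyperfilter ℕ : Filter ℕ),
        f (2 * (w + y i + y j)) = c₀ := by
      filter_upwards [hBlin, htw] with i hi hti
      obtain ⟨n0, hn0⟩ := H.add_mem hwH (hyH i)
      filter_upwards [hi, htw, hc₀, hev n0] with j hj htj hcj hnj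
      rw [← hcj]
      refine hc j _ ?_ ?_ hj
      · have h1 := (L j).add_mem (L_mono hnj hn0) (hy j)
        have : w + y i + y j - x j = w + y i + (y j - x j) := by ring
        rw [this]
        exact h1
      · have h1 : w + y i + y j = (t i + t j) / 2 := by
          rw [hti, htj]; ring
        rw [h1]
        have h2 := abs_le.1 (htρ i)
        have h3 := abs_le.1 (htρ j)
        rw [abs_le]
        constructor <;> linarith [h2.1, h2.2, h3.1, h3.2]
    rw [hU]
    exact this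
  · have : ∀ᶠ n in (hyperfilter ℕ : Filter ℕ), f (2 * (w + 2 * y n)) = c₀ := by
      filter_upwards [htw, hc₀] with n hn hcn
      rw [← hn, ← hcn]
      have := htc n
      revert this
      cases f (2 * t n) <;> cases c n <;> simp
    rw [hU]
    exact this

lemma pow_period (m : ℕ) : ∃ a : ℤ, (2 : ℤ) ^ (3 * 7 ^ m) - 1 = 7 ^ m * a := by
  have h : (7 : ℤ) ^ m ∣ 8 ^ (7 ^ m) - 1 := by
    induction m with
    | zero => simp
    | succ m ih =>
      have h8 : (7 : ℤ) ∣ 8 ^ (7 ^ m) - 1 := by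
        have := sub_dvd_pow_sub_pow (8 : ℤ) 1 (7 ^ m)
        simpa using this
      have hfac : (8 : ℤ) ^ (7 ^ (m + 1)) - 1 =
          (8 ^ (7 ^ m) - 1) * (∑ i ∈ Finset.range 7, ((8 : ℤ) ^ (7 ^ m)) ^ i) := by
        rw [pow_succ 7 m, pow_mul, mul_geom_sum]
      rw [hfac, pow_succ (7 : ℤ) m]
      refine mul_dvd_mul ih ?_
      have hmod : (8 : ℤ) ^ (7 ^ m) ≡ 1 [ZMOD 7] := (Int.modEq_iff_dvd.2 (by
        have := dvd_neg.2 h8
        simpa using this))
      have : (∑ i ∈ Finset.range 7, ((8 : ℤ) ^ (7 ^ m)) ^ i) ≡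
          ∑ i ∈ Finset.range 7, 1 [ZMOD 7] := by
        refine Int.ModEq.sum fun i _ => ?_
        simpa using hmod.pow i
      have h2 := this.dvd
      have h3 : (7 : ℤ) ∣ ∑ i ∈ Finset.range 7, 1 := by simp
      have := dvd_sub h3 h2
      simpa using this
  obtain ⟨a, ha⟩ := h
  refine ⟨a, ?_⟩
  rw [pow_mul]
  norm_num
  exact ha

theorem not_good (f : ℚ → Bool) : ¬ Good f := by
  intro hf
  obtain ⟨ρ, φ₀, hφ₀, N, Fs, hNF, hC⟩ := baire_step hf
  obtain ⟨k, hk⟩ := double_step hf φ₀ Fs ρ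
  -- the finite window
  set V : Finset ℚ := (finite_L_inter k (2 * ρ)).toFinset with hV
  have hVmem : ∀ v, v ∈ V ↔ v ∈ L k ∧ |v| ≤ 2 * ρ := by
    intro v
    rw [hV, Finite.mem_toFinset]
    rfl
  obtain ⟨x, hxH, hxE, hxρ, hxF⟩ := hφ₀ ((V ×ˢ Fs).image (fun p => p.1 + p.2))
    ((finite_L_inter k ρ).toFinset ∪ (N ×ˢ V).image (fun p => p.1 - p.2))
  have hρ0 : 0 ≤ ρ := (abs_nonneg x).trans hxρ
  have h0V : (0 : ℚ) ∈ V := (hVmem 0).2 ⟨(L k).zero_mem, by simp; linarith⟩
  have hxL : x ∉ L k := by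
    intro h
    apply hxE
    refine Finset.mem_union_left _ ?_
    rw [Finite.mem_toFinset]
    exact ⟨h, hxρ⟩
  have hxN : ∀ v ∈ V, x + v ∉ N := by
    intro v hv h
    apply hxE
    refine Finset.mem_union_right _ (Finset.mem_image.2 ⟨(x + v, v), ?_, by simp⟩)
    exact Finset.mem_product.2 ⟨h, hv⟩
  have hxV : ∀ v ∈ V, ∀ u ∈ Fs, f (x + v + u) = φ₀ (v + u) := by
    intro v hv u hu
    rw [add_assoc]
    exact hxF _ (Finset.mem_image.2 ⟨(v, u), Finset.mem_product.2 ⟨hv, hu⟩, rfl⟩)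
  have hφ₀Q : φ₀ ∈ Q f := subset_closure ⟨false, ρ, by simpa using hφ₀⟩
  have hxB : x ∈ B f φ₀ Fs := ⟨false, fun u hu => by
    have := hxV 0 h0V u hu
    simpa using this⟩
  -- the doubled colouring is constant on the good part of the coset of `x`
  have hconst : ∀ z, z - x ∈ L k → |z| ≤ ρ → z ∈ B f φ₀ Fs → f (2 * z) = f (2 * x) := by
    intro z hz hzρ ⟨s, hs⟩
    have hzV : z - x ∈ V := (hVmem _).2 ⟨hz, by
      have := abs_sub z x
      linarith⟩
    have := key hNF hC hφ₀Q (L_le_H k hz) H.zero_mem s false x ?_ ?_ ?_ ?_ ?_ ?_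
    · simpa using this
    · intro u hu
      rw [← hxV _ hzV u hu, ← hs u hu]
      congr 1
      ring
    · intro u hu
      simp
    · intro u hu
      rw [← hs u hu]
      congr 1
      ring
    · intro u hu
      have := hxV 0 h0V u hu
      simpa using this
    · exact hxN _ hzV
    · exact hxN _ h0V
  -- iterate the doubling
  have hiter : ∀ j : ℕ, ∀ z, z - 2 ^ j * x ∈ L k → |z| ≤ ρ → z ∈ B f φ₀ Fs →
      f (2 * z) = xor (decide (Odd j)) (f (2 * x)) := by
    intro j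
    induction j with
    | zero => simpa using hconst
    | succ j ih =>
      have hH : ∀ i : ℕ, (2 : ℚ) ^ i * x ∈ H ∧ (2 : ℚ) ^ i * x ∉ L k := by
        intro i
        induction i with
        | zero => simpa using ⟨hxH, hxL⟩
        | succ i ihi =>
          have h2 : (2 : ℚ) ^ (i + 1) * x = 2 * (2 ^ i * x) := by ring
          rw [h2]
          refine ⟨?_, fun h => ihi.2 ?_⟩
          · rw [two_mul]
            exact H.add_mem ihi.1 ihi.1
          · obtain ⟨m, hm⟩ := ihi.1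
            exact half_mem_L hm h
      have := hk (2 ^ j * x) (hH j).1 (hH j).2 _ ih
      intro z hz hzρ hzB
      rw [this z (by
        have h2 : (2 : ℚ) ^ (j + 1) * x = 2 * (2 ^ j * x) := by ring
        rw [← h2]; exact hz) hzρ hzB]
      have hdec : decide (Odd (j + 1)) = !(decide (Odd j)) := by
        by_cases hj : Odd j
        · have h1 : ¬ Odd (j + 1) := by rw [Nat.odd_add_one]; exact not_not.2 hj
          rw [decide_eq_true hj, decide_eq_false h1]
          rfl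
        · have h1 : Odd (j + 1) := by rw [Nat.odd_add_one]; exact hj
          rw [decide_eq_false hj, decide_eq_true h1]
          rfl
      rw [hdec]
      generalize f (2 * x) = b
      generalize decide (Odd j) = b'
      cases b <;> cases b' <;> rfl
  obtain ⟨m, hm⟩ := hxH
  obtain ⟨a, ha⟩ := pow_period m
  have hfin := hiter (3 * 7 ^ m) x (by
    obtain ⟨n, hn⟩ := mem_L.1 hm
    have h1 : x - 2 ^ (3 * 7 ^ m) * x = ((-(n * a) : ℤ) : ℚ) := by
      have h2 : (2 : ℚ) ^ (3 * 7 ^ m) - 1 = 7 ^ m * a := by exact_mod_cast ha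
      push_cast
      rw [← hn]
      linear_combination (-x) * h2
    rw [h1]
    exact intCast_mem_L k _) hxρ hxB
  have hodd : Odd (3 * 7 ^ m) := (by decide : Odd 3).mul (by decide : Odd 7).pow
  rw [decide_eq_true hodd] at hfin
  revert hfin
  cases f (2 * x) <;> simp

end Pool.Agent.SumQ
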